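import Pool.Agent.CMG.Stmts

/-!
# Row CNV of squad CMG (MP_005a41_gt): a compact convolution operator
-/

set_option autoImplicit false

open Set Topology MeasureTheory
open scoped BigOperators Pointwise ENNReal

namespace Pool.Agent.CMG.H72

open Pool.Agent.CMG

section
variable {K : Type} [Group K] [TopologicalSpace K] [IsTopologicalGroup K] [CompactSpace K]
  [TopologicalSpace.MetrizableSpace K] [MeasurableSpace K] [BorelSpace K] (μ : Measure K)
  [μ.IsHaarMeasure]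

open DomMulAct in
/-- The left regular representation. -/
noncomputable def lreg : K →* (Lp ℂ 2 μ ≃ₗᵢ[ℂ] Lp ℂ 2 μ) where
  toFun z :=
    { toFun := fun v => (mk z⁻¹ : Kᵈᵐᵃ) • v
      invFun := fun v => (mk z : Kᵈᵐᵃ) • v
      map_add' := fun v w => smul_add _ _ _
      map_smul' := fun c v => smul_comm _ _ _
      left_inv := fun v => by
        show (mk z : Kᵈᵐᵃ) • ((mk z⁻¹ : Kᵈᵐᵃ) • v) = v
        rw [smul_smul, ← mk_mul]; simp
      right_inv := fun v => by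
        show (mk z⁻¹ : Kᵈᵐᵃ) • ((mk z : Kᵈᵐᵃ) • v) = v
        rw [smul_smul, ← mk_mul]; simp
      norm_map' := fun v => norm_smul_Lp _ _ }
  map_one' := by
    ext1 v
    show (mk (1 : K)⁻¹ : Kᵈᵐᵃ) • v = v
    simp
  map_mul' x y := by
    ext1 v
    show (mk (x * y)⁻¹ : Kᵈᵐᵃ) • v = (mk x⁻¹ : Kᵈᵐᵃ) • ((mk y⁻¹ : Kᵈᵐᵃ) • v)
    rw [smul_smul, ← mk_mul, mul_inv_rev]

open DomMulAct in
theorem lreg_apply (z : K) (v : Lp ℂ 2 μ) : lreg μ z v = (mk z⁻¹ : Kᵈᵐᵃ) • v := rfl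

theorem lreg_ae (z : K) (v : Lp ℂ 2 μ) :
    (lreg μ z v : K → ℂ) =ᵐ[μ] fun x => v (z⁻¹ * x) := by
  rw [lreg_apply]
  exact DomMulAct.smul_Lp_ae_eq _ _

theorem lreg_cont (v : Lp ℂ 2 μ) : Continuous fun z => lreg μ z v := by
  have : Fact ((2 : ℝ≥0∞) ≠ ∞) := ⟨by norm_num⟩
  have h : Continuous fun z : K => (DomMulAct.mk z⁻¹ : Kᵈᵐᵃ) • v :=
    (DomMulAct.continuous_mk.comp continuous_inv).smul continuous_const
  exact h

/-- A symmetric bump function. -/
theorem bump (g : K) (hg : g ≠ 1) : ∃ k : K → ℝ, Continuous k ∧ (∀ x, 0 ≤ k x) ∧ 0 < k 1 ∧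
    (∀ x, k x⁻¹ = k x) ∧ ∀ y, k (g⁻¹ * y) * k y = 0 := by
  letI := TopologicalSpace.metrizableSpaceMetric K
  have hU : {p : K × K | p.1 * p.2⁻¹ ≠ g} ∈ 𝓝 ((1, 1) : K × K) := by
    have hc : Continuous fun p : K × K => p.1 * p.2⁻¹ := by fun_prop
    refine (isOpen_compl_singleton.preimage hc).mem_nhds ?_
    simpa using hg.symm
  rw [nhds_prod_eq, Filter.mem_prod_same_iff] at hU
  obtain ⟨W, hW, hWg⟩ := hU
  obtain ⟨δ, hδ, hδW⟩ := Metric.mem_nhds_iff.1 hW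
  let f : K → ℝ := fun x => max 0 (1 - dist x 1 / δ)
  have hf : Continuous f := by
    have : Continuous fun x : K => 1 - dist x 1 / δ := by fun_prop
    exact continuous_const.max this
  have hf0 : ∀ x, 0 ≤ f x := fun x => le_max_left _ _
  have hfW : ∀ x, f x ≠ 0 → x ∈ W := by
    intro x hx
    apply hδW
    rw [Metric.mem_ball]
    by_contra hc
    apply hx
    apply max_eq_left
    rw [not_lt] at hc
    have : 1 ≤ dist x 1 / δ := by rwa [one_le_div hδ]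
    linarith
  refine ⟨fun x => f x * f x⁻¹, hf.mul (hf.comp continuous_inv), fun x => mul_nonneg (hf0 _) (hf0 _),
    ?_, fun x => ?_, fun y => ?_⟩
  · have : f 1 = 1 := by simp [f]
    show 0 < f 1 * f 1⁻¹
    rw [inv_one, this]; norm_num
  · show f x⁻¹ * f x⁻¹⁻¹ = f x * f x⁻¹
    rw [inv_inv, mul_comm]
  · by_contra hc
    have h3 : f (g⁻¹ * y) ≠ 0 := by
      intro h
      apply hc
      simp [h]
    have h4 : f y ≠ 0 := by
      intro h
      apply hc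
      simp [h]
    have h5 : ((y, g⁻¹ * y) : K × K) ∈ W ×ˢ W := ⟨hfW _ h4, hfW _ h3⟩
    have h6 := hWg h5
    apply h6
    show y * (g⁻¹ * y)⁻¹ = g
    group

theorem comm_aux (k : K → ℝ) (κ : C(K × K, ℂ)) (hκ : ∀ x y, κ (x, y) = (k (x⁻¹ * y) : ℂ))
    (T : Lp ℂ 2 μ →L[ℂ] Lp ℂ 2 μ)
    (hT : ∀ v : Lp ℂ 2 μ, (T v : K → ℂ) =ᵐ[μ] fun x => ∫ y, κ (x, y) * v y ∂μ) (z : K)
    (v : Lp ℂ 2 μ) : lreg μ z (T v) = T (lreg μ z v) := by
  apply Lp.ext
  have h1 := lreg_ae μ z (T v)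
  have h2 : (fun x => T v (z⁻¹ * x)) =ᵐ[μ] fun x => ∫ y, κ (z⁻¹ * x, y) * v y ∂μ :=
    (measurePreserving_mul_left μ z⁻¹).quasiMeasurePreserving.ae_eq_comp (hT v)
  have h3 := hT (lreg μ z v)
  have h4 : ∀ x, ∫ y, κ (x, y) * (lreg μ z v) y ∂μ = ∫ y, κ (z⁻¹ * x, y) * v y ∂μ := by
    intro x
    have h5 : ∫ y, κ (x, y) * (lreg μ z v) y ∂μ = ∫ y, κ (x, y) * v (z⁻¹ * y) ∂μ := by
      refine integral_congr_ae ?_
      filter_upwards [lreg_ae μ z v] with y hy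
      rw [hy]
    rw [h5, ← integral_mul_left_eq_self (fun y => κ (z⁻¹ * x, y) * v y) z⁻¹]
    refine integral_congr_ae (Filter.Eventually.of_forall fun y => ?_)
    show κ (x, y) * v (z⁻¹ * y) = κ (z⁻¹ * x, z⁻¹ * y) * v (z⁻¹ * y)
    rw [hκ, hκ]
    congr 3
    group
  refine (h1.trans h2).trans ?_
  refine Filter.EventuallyEq.trans ?_ h3.symm
  exact Filter.Eventually.of_forall fun x => (h4 x).symm

theorem sa_aux [SecondCountableTopology K] [IsFiniteMeasure μ] (k : K → ℝ) (κ : C(K × K, ℂ))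
    (hκ : ∀ x y, κ (x, y) = (k (x⁻¹ * y) : ℂ)) (hks : ∀ x, k x⁻¹ = k x)
    (T : Lp ℂ 2 μ →L[ℂ] Lp ℂ 2 μ)
    (hT : ∀ v : Lp ℂ 2 μ, (T v : K → ℂ) =ᵐ[μ] fun x => ∫ y, κ (x, y) * v y ∂μ) :
    IsSelfAdjoint T := by
  rw [ContinuousLinearMap.isSelfAdjoint_iff_isSymmetric]
  intro v u
  have hsym : ∀ x y, κ (y, x) = κ (x, y) := by
    intro x y
    rw [hκ, hκ, ← hks (x⁻¹ * y)]
    congr 2
    group
  have hreal : ∀ x y, (starRingEnd ℂ) (κ (x, y)) = κ (x, y) := by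
    intro x y
    rw [hκ, Complex.conj_ofReal]
  have hu : Integrable (u : K → ℂ) μ := (Lp.memLp u).integrable (by norm_num)
  have hv : Integrable (v : K → ℂ) μ := (Lp.memLp v).integrable (by norm_num)
  have hv' : Integrable (fun y => (starRingEnd ℂ) (v y)) μ := by
    have := (Complex.conjCLE.toContinuousLinearMap).integrable_comp hv
    exact this
  have hint : Integrable (fun p : K × K => κ p * (u p.1 * (starRingEnd ℂ) (v p.2)))
      (μ.prod μ) := by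
    refine Integrable.bdd_mul (hu.mul_prod hv') κ.continuous.aestronglyMeasurable (c := ‖κ‖) ?_
    exact Filter.Eventually.of_forall fun p => κ.norm_coe_le_norm p
  have hsw := integral_integral_swap (f := fun x y => κ (x, y) * (u x * (starRingEnd ℂ) (v y)))
    hint
  have e1 : inner ℂ (T v) u = ∫ x, ∫ y, κ (x, y) * (u x * (starRingEnd ℂ) (v y)) ∂μ ∂μ := by
    rw [L2.inner_def]
    refine integral_congr_ae ?_
    filter_upwards [hT v] with x hx
    rw [RCLike.inner_apply, hx, ← integral_conj, ← integral_const_mul]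
    refine integral_congr_ae (Filter.Eventually.of_forall fun y => ?_)
    show u x * (starRingEnd ℂ) (κ (x, y) * v y) = κ (x, y) * (u x * (starRingEnd ℂ) (v y))
    rw [map_mul, hreal]
    ring
  have e2 : inner ℂ v (T u) = ∫ y, ∫ x, κ (x, y) * (u x * (starRingEnd ℂ) (v y)) ∂μ ∂μ := by
    rw [L2.inner_def]
    refine integral_congr_ae ?_
    filter_upwards [hT u] with y hy
    rw [RCLike.inner_apply, hy, ← integral_mul_const]
    refine integral_congr_ae (Filter.Eventually.of_forall fun x => ?_)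
    show κ (y, x) * u x * (starRingEnd ℂ) (v y) = κ (x, y) * (u x * (starRingEnd ℂ) (v y))
    rw [hsym]
    ring
  show inner ℂ (T v) u = inner ℂ v (T u)
  rw [e1, e2, hsw]

theorem ne_aux [SecondCountableTopology K] [IsFiniteMeasure μ] (g : K) (k : K → ℝ)
    (hkc : Continuous k) (κ : C(K × K, ℂ))
    (hκ : ∀ x y, κ (x, y) = (k (x⁻¹ * y) : ℂ)) (hk0 : ∀ x, 0 ≤ k x) (hk1 : 0 < k 1)
    (hkg : ∀ y, k (g⁻¹ * y) * k y = 0)
    (T : Lp ℂ 2 μ →L[ℂ] Lp ℂ 2 μ)
    (hT : ∀ v : Lp ℂ 2 μ, (T v : K → ℂ) =ᵐ[μ] fun x => ∫ y, κ (x, y) * v y ∂μ)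
    (w : Lp ℂ 2 μ) (hw : (w : K → ℂ) =ᵐ[μ] fun x => (k x : ℂ)) : lreg μ g (T w) ≠ T w := by
  intro he
  have hTw : (T w : K → ℂ) =ᵐ[μ] fun x => ∫ y, κ (x, y) * (k y : ℂ) ∂μ := by
    refine (hT w).trans (Filter.Eventually.of_forall fun x => ?_)
    refine integral_congr_ae ?_
    filter_upwards [hw] with y hy
    rw [hy]
  have hc : Continuous fun x => ∫ y, κ (x, y) * (k y : ℂ) ∂μ := by
    have h1 : Continuous (Function.uncurry fun (x y : K) => κ (x, y) * (k y : ℂ)) := by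
      have h2 : Continuous fun p : K × K => κ p * (k p.2 : ℂ) :=
        κ.continuous.mul (Complex.continuous_ofReal.comp (hkc.comp continuous_snd))
      exact h2
    have h3 := continuous_parametric_integral_of_continuous (μ := μ) h1
      (isCompact_univ (X := K))
    simpa only [Measure.restrict_univ] using h3
  have h1 : (fun x => ∫ y, κ (g⁻¹ * x, y) * (k y : ℂ) ∂μ) =ᵐ[μ]
      fun x => ∫ y, κ (x, y) * (k y : ℂ) ∂μ := by
    have h2 : (fun x => T w (g⁻¹ * x)) =ᵐ[μ] fun x => ∫ y, κ (g⁻¹ * x, y) * (k y : ℂ) ∂μ :=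
      (measurePreserving_mul_left μ g⁻¹).quasiMeasurePreserving.ae_eq_comp hTw
    have h3 := lreg_ae μ g (T w)
    rw [he] at h3
    exact h2.symm.trans (h3.symm.trans hTw)
  have hc' : Continuous fun x => ∫ y, κ (g⁻¹ * x, y) * (k y : ℂ) ∂μ :=
    hc.comp (continuous_const.mul continuous_id)
  have h2 := (Continuous.ae_eq_iff_eq μ hc' hc).1 h1
  have h3 := congrFun h2 g
  have h4 : ∫ y, κ (g, y) * (k y : ℂ) ∂μ = 0 := by
    rw [← integral_zero K ℂ (μ := μ)]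
    refine integral_congr_ae (Filter.Eventually.of_forall fun y => ?_)
    show κ (g, y) * (k y : ℂ) = 0
    rw [hκ, ← Complex.ofReal_mul, hkg, Complex.ofReal_zero]
  have h5 : ∫ y, κ (g⁻¹ * g, y) * (k y : ℂ) ∂μ = ((∫ y, k y * k y ∂μ : ℝ) : ℂ) := by
    rw [← integral_complex_ofReal]
    refine integral_congr_ae (Filter.Eventually.of_forall fun y => ?_)
    show κ (g⁻¹ * g, y) * (k y : ℂ) = ((k y * k y : ℝ) : ℂ)
    rw [hκ, inv_mul_cancel, inv_one, one_mul, Complex.ofReal_mul]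
  have h6 : 0 < ∫ y, k y * k y ∂μ := by
    refine Continuous.integral_pos_of_hasCompactSupport_nonneg_nonzero (x := (1 : K))
      (hkc.mul hkc) (HasCompactSupport.of_compactSpace _) (fun y => mul_nonneg (hk0 y) (hk0 y)) ?_
    positivity
  simp only [h4] at h3
  rw [h5] at h3
  have h7 : (∫ y, k y * k y ∂μ : ℝ) = 0 := by exact_mod_cast h3
  linarith

end

theorem cnv (hk : KerStmt) : CnvStmt := by
  intro K _ _ _ _ _ g hg
  letI : MeasurableSpace K := borel K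
  haveI : BorelSpace K := ⟨rfl⟩
  letI := TopologicalSpace.metrizableSpaceMetric K
  haveI : SecondCountableTopology K := inferInstance
  obtain ⟨μ, hμ⟩ : ∃ μ : Measure K, μ.IsHaarMeasure := ⟨Measure.haar, inferInstance⟩
  haveI := hμ
  haveI : IsFiniteMeasure μ := inferInstance
  obtain ⟨k, hkc, hk0, hk1, hks, hkg⟩ := bump g hg
  have hkc2 : Continuous fun p : K × K => (k (p.1⁻¹ * p.2) : ℂ) :=
    Complex.continuous_ofReal.comp (hkc.comp ((continuous_fst.inv).mul continuous_snd))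
  obtain ⟨T, hT, hTk⟩ := hk K μ ⟨fun p => (k (p.1⁻¹ * p.2) : ℂ), hkc2⟩
  have hkc1 : Continuous fun x => (k x : ℂ) := Complex.continuous_ofReal.comp hkc
  refine ⟨Lp ℂ 2 μ, inferInstance, inferInstance, inferInstance, lreg μ, T,
    ContinuousMap.toLp 2 μ ℂ ⟨fun x => (k x : ℂ), hkc1⟩, lreg_cont μ, ?_, hT, ?_, ?_⟩
  · exact sa_aux μ k _ (fun _ _ => rfl) hks T hTk
  · exact comm_aux μ k _ (fun _ _ => rfl) T hTk
  · exact ne_aux μ g k hkc _ (fun _ _ => rfl) hk0 hk1 hkg T hTk _ (ContinuousMap.coeFn_toLp _ _)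

end Pool.Agent.CMG.H72
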